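import Pool.Agent.J4H89.RZ.Four
import Pool.Agent.J4H5.RZ.Stm2

/-!
# The fourth moment with logarithms (project RZ, FOURL)
-/

set_option autoImplicit false

namespace Pool.Agent.J4H89.RZ

set_option maxHeartbeats 4000000

open Complex MeasureTheory Filter Topology Set
open Pool.Agent.J4H4.NG
open Pool.Agent.J4H5.RZ (DS Maj S_SUM S_MVI S_DV S_FOURL S_FOURL')

/-- the tail by the amplitudes -/
theorem tail_amp {a lam : ℝ} {c : ℕ → ℂ} (hc : Maj a lam c)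
    (hs : Summable (fun n : ℕ => amp a lam (n + 1))) (N : ℕ) (v : ℝ) :
    ‖DS c v‖ ≤ ‖∑ n ∈ Finset.range N, c n * ((n : ℂ) + 1) ^ (-(I * v))‖ +
      ∑' n : ℕ, amp a lam (n + N + 1) := by
  have h1 := (DS_summable hc hs v).sum_add_tsum_nat_add N
  have hs2 : Summable (fun n : ℕ => amp a lam (n + N + 1)) := (summable_nat_add_iff N).mpr hs
  have h2 : ‖∑' n : ℕ, c (n + N) * (((n + N : ℕ) : ℂ) + 1) ^ (-(I * v))‖ ≤
      ∑' n : ℕ, amp a lam (n + N + 1) := by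
    have hb : ∀ n : ℕ, ‖c (n + N) * (((n + N : ℕ) : ℂ) + 1) ^ (-(I * v))‖ ≤
        amp a lam (n + N + 1) := by
      intro n
      rw [norm_mul, norm_one_term, mul_one]
      exact hc (n + N)
    have hsn : Summable fun n : ℕ => ‖c (n + N) * (((n + N : ℕ) : ℂ) + 1) ^ (-(I * v))‖ :=
      Summable.of_nonneg_of_le (fun _ => norm_nonneg _) hb hs2
    exact (norm_tsum_le_tsum_norm hsn).trans (Summable.tsum_le_tsum hb hsn hs2)
  have h3 : DS c v = ∑ n ∈ Finset.range N, c n * ((n : ℂ) + 1) ^ (-(I * v)) +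
      ∑' n : ℕ, c (n + N) * (((n + N : ℕ) : ℂ) + 1) ^ (-(I * v)) := h1.symm
  rw [h3]
  exact (norm_add_le _ _).trans (add_le_add_right h2 _)

/-- the coefficients of the square, indexed from `0` -/
noncomputable def bN (c : ℕ → ℂ) (N : ℕ) (n : ℕ) : ℂ := Pool.Agent.J4H89.RZ.bb c N (n + 1)

theorem bN_zero (c : ℕ → ℂ) (N n : ℕ) (hn : N * N ≤ n) : bN c N n = 0 := by
  rw [bN, bb]
  apply Finset.sum_eq_zero
  intro p hp
  exfalso
  rw [Finset.mem_filter, Finset.mem_product, Finset.mem_Icc, Finset.mem_Icc] at hp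
  have := Nat.mul_le_mul hp.1.1.2 hp.1.2.2
  omega

theorem sum_shift {M : Type*} [AddCommMonoid M] (f : ℕ → M) (N : ℕ) :
    ∑ m ∈ Finset.Icc 1 N, f m = ∑ n ∈ Finset.range N, f (n + 1) := by
  have h1 : Finset.Icc 1 N = Finset.Ico (0 + 1) (N + 1) := by
    ext x; rw [Finset.mem_Icc, Finset.mem_Ico]; omega
  rw [h1, ← Finset.sum_Ico_add', Finset.range_eq_Ico]

theorem DS_bN (c : ℕ → ℂ) (N : ℕ) (v : ℝ) :
    DS (bN c N) v = (∑ n ∈ Finset.range N, c n * ((n : ℂ) + 1) ^ (-(I * v))) ^ 2 := by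
  rw [sq_eq, sum_shift]
  unfold DS
  rw [tsum_eq_sum (s := Finset.range (N * N))]
  · refine Finset.sum_congr rfl fun n _ => ?_
    rw [bN, Nat.cast_add, Nat.cast_one]
  · intro n hn
    rw [Finset.mem_range, not_lt] at hn
    rw [bN_zero c N n hn, zero_mul]

theorem sum_norm_bN {a lam : ℝ} {c : ℕ → ℂ} (hc : Maj a lam c)
    (hs : Summable (fun n : ℕ => amp a lam (n + 1))) (N : ℕ) :
    ∑' n : ℕ, ‖bN c N n‖ ≤ (∑' n : ℕ, amp a lam (n + 1)) ^ 2 := by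
  have h1 : ∑' n : ℕ, ‖bN c N n‖ = ∑ m ∈ Finset.Icc 1 (N * N), ‖bb c N m‖ := by
    rw [sum_shift, tsum_eq_sum (s := Finset.range (N * N))]
    · rfl
    · intro n hn
      rw [Finset.mem_range, not_lt] at hn
      rw [bN_zero c N n hn, norm_zero]
  have h2 : ∑ m ∈ Finset.Icc 1 (N * N), ‖bb c N m‖ ≤
      ∑ p ∈ Finset.Icc 1 N ×ˢ Finset.Icc 1 N, ‖c (p.1 - 1)‖ * ‖c (p.2 - 1)‖ := by
    rw [← Finset.sum_fiberwise_of_maps_to (s := Finset.Icc 1 N ×ˢ Finset.Icc 1 N)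
      (t := Finset.Icc 1 (N * N)) (g := fun p => p.1 * p.2)]
    · refine Finset.sum_le_sum fun m _ => ?_
      refine (norm_sum_le _ _).trans (Finset.sum_le_sum fun p _ => ?_)
      rw [norm_mul]
    · intro p hp
      rw [Finset.mem_product, Finset.mem_Icc, Finset.mem_Icc] at hp
      rw [Finset.mem_Icc]
      exact ⟨Nat.mul_pos hp.1.1 hp.2.1, Nat.mul_le_mul hp.1.2 hp.2.2⟩
  have h3 : ∑ p ∈ Finset.Icc 1 N ×ˢ Finset.Icc 1 N, ‖c (p.1 - 1)‖ * ‖c (p.2 - 1)‖ =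
      (∑ n ∈ Finset.range N, ‖c n‖) ^ 2 := by
    have h4 : ∑ n ∈ Finset.range N, ‖c n‖ = ∑ k ∈ Finset.Icc 1 N, ‖c (k - 1)‖ := by
      rw [sum_shift]; rfl
    rw [h4, sq, Finset.sum_mul_sum, ← Finset.sum_product']
  have h5 : ∑ n ∈ Finset.range N, ‖c n‖ ≤ ∑' n : ℕ, amp a lam (n + 1) := by
    refine (Finset.sum_le_sum fun n _ => hc n).trans ?_
    exact hs.sum_le_tsum _ fun _ _ => amp_nonneg _ _ _
  rw [h1]
  refine h2.trans ?_
  rw [h3]
  exact pow_le_pow_left₀ (Finset.sum_nonneg fun _ _ => norm_nonneg _) h5 2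

/-- the fourth moment, second form -/
theorem t_FOURL : S_FOURL' := by
  rintro hSUM ⟨CM, hCM, hMV⟩ hDV a C₀ ha hC₀
  obtain ⟨CD, T₁, hCD, hT₁, hD⟩ := hDV (a / 2) C₀ (by positivity) hC₀
  obtain ⟨c1, C1, _, hC1, hS1⟩ := hSUM a 1 ha one_pos
  refine ⟨8 * (CM * (2 * CD + C1 ^ 4 * Real.exp (4 * C₀))) + 16,
    max T₁ (Real.exp (2 * (C₀ + 1))), by positivity, hT₁.trans (le_max_left _ _),
    fun T lam hTT hlam c hc => ?_⟩
  have hTT1 : T₁ ≤ T := (le_max_left _ _).trans hTT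
  have hTT2 : Real.exp (2 * (C₀ + 1)) ≤ T := (le_max_right _ _).trans hTT
  have hT3 : 3 ≤ T := hT₁.trans hTT1
  have hT0 : 0 < T := by linarith
  have hL2 : 2 * (C₀ + 1) ≤ Real.log T := by
    rw [← Real.exp_le_exp, Real.exp_log hT0]; exact hTT2
  obtain ⟨hD1, hD2⟩ := hD T lam hTT1 hlam
  rw [abs_le] at hlam
  have hlam1 : 1 ≤ lam := by linarith [hlam.1]
  have hL1 : 1 ≤ Real.log T := by linarith
  obtain ⟨hsm, hsa, -⟩ := hS1 lam hlam1
  -- choose the number of terms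
  obtain ⟨N, hN⟩ : ∃ N : ℕ, ∑' n : ℕ, amp a lam (n + N + 1) ≤ 1 / T := by
    have h1 := tendsto_sum_nat_add (fun n : ℕ => amp a lam (n + 1))
    have h2 := (h1.eventually_lt_const (show (0 : ℝ) < 1 / T by positivity)).exists
    obtain ⟨N, hN⟩ := h2
    exact ⟨N, hN.le⟩
  have hq0 : 0 ≤ ∑' n : ℕ, amp a lam (n + N + 1) := tsum_nonneg fun _ => amp_nonneg _ _ _
  set w : ℕ → ℝ := fun n => ((n : ℝ) + 1) * (1 + Real.log ((n : ℝ) + 1)) with hw
  have hw0 : ∀ n, 0 ≤ w n := by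
    intro n
    have : 0 ≤ Real.log ((n : ℝ) + 1) := Real.log_nonneg (by
      have : (0 : ℝ) ≤ (n : ℝ) := Nat.cast_nonneg _
      linarith)
    rw [hw]; positivity
  have hsn : Summable (fun n => ‖bN c N n‖) := by
    apply summable_of_ne_finset_zero (s := Finset.range (N * N))
    intro n hn
    rw [Finset.mem_range, not_lt] at hn
    rw [bN_zero c N n hn, norm_zero]
  have hsw : Summable (fun n : ℕ => ‖bN c N n‖ ^ 2 * w n) := by
    apply summable_of_ne_finset_zero (s := Finset.range (N * N))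
    intro n hn
    rw [Finset.mem_range, not_lt] at hn
    rw [bN_zero c N n hn, norm_zero]; simp
  have hsw2 : Summable (fun n : ℕ => ‖bN c N n‖ ^ 2 * (2 * T + w n)) := by
    apply summable_of_ne_finset_zero (s := Finset.range (N * N))
    intro n hn
    rw [Finset.mem_range, not_lt] at hn
    rw [bN_zero c N n hn, norm_zero]; simp
  have h5 := hMV (bN c N) T (2 * T) (by linarith) hsn hsw
  rw [show T + 2 * T = 3 * T by ring] at h5
  have h6 : ∑' n : ℕ, ‖bN c N n‖ ^ 2 * (2 * T + w n) ≤ 2 * (CD * (Real.log T) ^ 5 * T ^ (-(2 : ℝ))) := by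
    have hb : ∀ n : ℕ, ‖bN c N n‖ ^ 2 * (2 * T + w n) ≤
        2 * ((Pool.Agent.J4H5.RZ.bb (a / 2) lam n) ^ 2 * (T + w n)) := by
      intro n
      have h7 : ‖bN c N n‖ ≤ Pool.Agent.J4H5.RZ.bb (a / 2) lam n :=
        bb_le ha.le hc N (Nat.succ_le_succ (Nat.zero_le n))
      have h8 := pow_le_pow_left₀ (norm_nonneg _) h7 2
      have h9 := hw0 n
      have h10 : 2 * T + w n ≤ 2 * (T + w n) := by linarith
      calc _ ≤ (Pool.Agent.J4H5.RZ.bb (a / 2) lam n) ^ 2 * (2 * (T + w n)) := by gcongr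
        _ = _ := by ring
    calc _ ≤ ∑' n : ℕ, 2 * ((Pool.Agent.J4H5.RZ.bb (a / 2) lam n) ^ 2 * (T + w n)) :=
          Summable.tsum_le_tsum hb hsw2 (hD1.mul_left 2)
      _ = 2 * ∑' n : ℕ, ((Pool.Agent.J4H5.RZ.bb (a / 2) lam n) ^ 2 * (T + w n)) := tsum_mul_left
      _ ≤ _ := by
          have := hD2
          linarith
  have h7 : (∑' n : ℕ, ‖bN c N n‖) ^ 2 ≤ C1 ^ 4 * Real.exp (4 * C₀) * T ^ (-(2 : ℝ)) := by
    have h8 := sum_norm_bN hc hsm N
    have h9 : 0 ≤ ∑' n : ℕ, ‖bN c N n‖ := tsum_nonneg fun _ => norm_nonneg _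
    have h10 : 0 ≤ ∑' n : ℕ, amp a lam (n + 1) := tsum_nonneg fun _ => amp_nonneg _ _ _
    calc (∑' n : ℕ, ‖bN c N n‖) ^ 2 ≤ ((∑' n : ℕ, amp a lam (n + 1)) ^ 2) ^ 2 := by gcongr
      _ ≤ ((C1 * Real.exp (-lam)) ^ 2) ^ 2 := by gcongr
      _ = C1 ^ 4 * Real.exp (-(4 * lam)) := by
          rw [← pow_mul, mul_pow, ← Real.exp_nat_mul]
          norm_num
      _ ≤ C1 ^ 4 * (Real.exp (4 * C₀) * T ^ (-(2 : ℝ))) := by
          gcongr
          rw [Real.rpow_def_of_pos hT0, ← Real.exp_add]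
          apply Real.exp_le_exp.mpr
          have := hlam.1
          linarith
      _ = _ := by ring
  set G : ℝ → ℂ := fun v => DS (bN c N) v with hG
  have hGe : ∀ v, G v = (∑ n ∈ Finset.range N, c n * ((n : ℂ) + 1) ^ (-(I * v))) ^ 2 := fun v =>
    DS_bN c N v
  have hGc : Continuous G := by
    have : G = fun v : ℝ => (∑ n ∈ Finset.range N, c n * ((n : ℂ) + 1) ^ (-(I * v))) ^ 2 := by
      funext v; exact hGe v
    rw [this]
    refine Continuous.pow (continuous_finsetSum _ fun m hm => ?_) 2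
    refine continuous_const.mul ?_
    refine Continuous.const_cpow (by fun_prop) (Or.inl ?_)
    exact_mod_cast Nat.succ_ne_zero m
  have hp : ∀ v, ‖DS c v‖ ^ 4 ≤ 8 * ‖G v‖ ^ 2 + 8 * (1 / T) ^ 4 := by
    intro v
    have h1 := tail_amp hc hsm N v
    have h2 : ‖G v‖ ^ 2 = ‖∑ n ∈ Finset.range N, c n * ((n : ℂ) + 1) ^ (-(I * v))‖ ^ 4 := by
      rw [hGe, norm_pow, ← pow_mul]
    rw [h2]
    exact (pow_le_pow_left₀ (norm_nonneg _) (h1.trans (add_le_add_right hN _)) 4).trans four_le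
  have h3 : ∫ v in T..(3 * T), ‖DS c v‖ ^ 4 ≤
      ∫ v in T..(3 * T), (8 * ‖G v‖ ^ 2 + 8 * (1 / T) ^ 4) := by
    apply intervalIntegral.integral_mono_on (by linarith)
    · exact (((DS_cont hc hsm).norm).pow 4).intervalIntegrable _ _
    · exact Continuous.intervalIntegrable (by fun_prop) _ _
    · intro v _; exact hp v
  have h4 : ∫ v in T..(3 * T), (8 * ‖G v‖ ^ 2 + 8 * (1 / T) ^ 4) =
      8 * (∫ v in T..(3 * T), ‖G v‖ ^ 2) + 16 * T * (1 / T) ^ 4 := by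
    rw [intervalIntegral.integral_add (Continuous.intervalIntegrable (by fun_prop) _ _)
      (Continuous.intervalIntegrable (by fun_prop) _ _), intervalIntegral.integral_const_mul,
      intervalIntegral.integral_const, smul_eq_mul]
    ring
  rw [h4] at h3
  refine h3.trans ?_
  have hP0 : 0 < T ^ (-(2 : ℝ)) := by positivity
  have hL5 : 1 ≤ (Real.log T) ^ 5 := one_le_pow₀ hL1
  have h11 : 16 * T * (1 / T) ^ 4 ≤ 16 * ((Real.log T) ^ 5 * T ^ (-(2 : ℝ))) := by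
    have h12 : T * (1 / T) ^ 4 ≤ T ^ (-(2 : ℝ)) := by
      rw [Real.rpow_neg hT0.le, show (2 : ℝ) = ((2 : ℕ) : ℝ) by norm_num, Real.rpow_natCast]
      have : T * (1 / T) ^ 4 = (T ^ 2)⁻¹ * (1 / T) := by field_simp
      rw [this]
      have h13 : 1 / T ≤ 1 := by rw [div_le_one hT0]; linarith
      calc (T ^ 2)⁻¹ * (1 / T) ≤ (T ^ 2)⁻¹ * 1 := by gcongr
        _ = _ := mul_one _
    calc 16 * T * (1 / T) ^ 4 = 16 * (T * (1 / T) ^ 4) := by ring
      _ ≤ 16 * (1 * T ^ (-(2 : ℝ))) := by rw [one_mul]; gcongr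
      _ ≤ _ := by gcongr
  have h14 : ∫ v in T..(3 * T), ‖G v‖ ^ 2 ≤
      CM * (2 * CD + C1 ^ 4 * Real.exp (4 * C₀)) * ((Real.log T) ^ 5 * T ^ (-(2 : ℝ))) := by
    refine h5.trans ?_
    calc _ ≤ CM * (2 * (CD * (Real.log T) ^ 5 * T ^ (-(2 : ℝ))) +
          C1 ^ 4 * Real.exp (4 * C₀) * T ^ (-(2 : ℝ))) := by gcongr
      _ ≤ CM * (2 * (CD * (Real.log T) ^ 5 * T ^ (-(2 : ℝ))) +
          C1 ^ 4 * Real.exp (4 * C₀) * ((Real.log T) ^ 5 * T ^ (-(2 : ℝ)))) := by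
          gcongr
          exact le_mul_of_one_le_left hP0.le hL5
      _ = _ := by ring
  calc _ ≤ 8 * (CM * (2 * CD + C1 ^ 4 * Real.exp (4 * C₀)) * ((Real.log T) ^ 5 * T ^ (-(2 : ℝ)))) +
        16 * ((Real.log T) ^ 5 * T ^ (-(2 : ℝ))) := by gcongr
    _ = _ := by ring

end Pool.Agent.J4H89.RZ
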