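import Pool.Agent.J4H5.RZ.Stm
import Pool.Agent.H510R2.Div

/-!
# The fourth moment (project RZ, FOUR)
-/

set_option autoImplicit false

namespace Pool.Agent.J4H89.RZ

set_option maxHeartbeats 4000000

open Complex MeasureTheory Filter Topology Set
open Pool.Agent.J4H4.NG Pool.Agent.J4H5.RZ

theorem norm_one_term (n : ℕ) (v : ℝ) : ‖((n : ℂ) + 1) ^ (-(I * v))‖ = 1 := by
  have : ((n : ℂ) + 1) = (((n : ℝ) + 1 : ℝ) : ℂ) := by push_cast; ring
  rw [this, Complex.norm_cpow_eq_rpow_re_of_pos (by positivity)]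
  simp

theorem amp_nonneg (a lam : ℝ) (k : ℕ) : 0 ≤ amp a lam k := by unfold amp; positivity

theorem amp_le (a lam : ℝ) (ha : 0 ≤ a) (k : ℕ) : amp a lam k ≤ ((k : ℝ) ^ 2)⁻¹ := by
  unfold amp
  have : Real.exp (-a * (Real.log k - lam) ^ 2) ≤ 1 := by
    apply Real.exp_le_one_iff.mpr
    have : 0 ≤ a * (Real.log k - lam) ^ 2 := by positivity
    linarith
  calc ((k : ℝ) ^ 2)⁻¹ * Real.exp (-a * (Real.log k - lam) ^ 2) ≤ ((k : ℝ) ^ 2)⁻¹ * 1 := by gcongr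
    _ = _ := mul_one _

/-- product of two amplitudes -/
theorem amp_mul {a : ℝ} (lam : ℝ) (ha : 0 ≤ a) {k l : ℕ} (hk : 1 ≤ k) (hl : 1 ≤ l) :
    amp a lam k * amp a lam l ≤ amp (a / 2) (2 * lam) (k * l) := by
  have hk0 : (0 : ℝ) < k := by exact_mod_cast hk
  have hl0 : (0 : ℝ) < l := by exact_mod_cast hl
  unfold amp
  rw [Nat.cast_mul, Real.log_mul hk0.ne' hl0.ne']
  have e1 : ((k : ℝ) ^ 2)⁻¹ * Real.exp (-a * (Real.log k - lam) ^ 2) *
      (((l : ℝ) ^ 2)⁻¹ * Real.exp (-a * (Real.log l - lam) ^ 2)) =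
      (((k : ℝ) * l) ^ 2)⁻¹ * Real.exp (-a * (Real.log k - lam) ^ 2 + -a * (Real.log l - lam) ^ 2) := by
    rw [Real.exp_add, mul_pow, mul_inv]; ring
  rw [e1]
  gcongr
  nlinarith [mul_nonneg ha (sq_nonneg ((Real.log k - lam) - (Real.log l - lam)))]

theorem four_le {x y : ℝ} : (x + y) ^ 4 ≤ 8 * x ^ 4 + 8 * y ^ 4 := by
  have h1 : (x + y) ^ 2 ≤ 2 * x ^ 2 + 2 * y ^ 2 := by nlinarith [sq_nonneg (x - y)]
  have h2 : (2 * x ^ 2 + 2 * y ^ 2) ^ 2 ≤ 8 * x ^ 4 + 8 * y ^ 4 := by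
    nlinarith [sq_nonneg (x ^ 2 - y ^ 2)]
  calc (x + y) ^ 4 = ((x + y) ^ 2) ^ 2 := by ring
    _ ≤ (2 * x ^ 2 + 2 * y ^ 2) ^ 2 := by gcongr
    _ ≤ _ := h2

/-- coefficients of the square -/
noncomputable def bb (c : ℕ → ℂ) (N m : ℕ) : ℂ :=
  ∑ p ∈ (Finset.Icc 1 N ×ˢ Finset.Icc 1 N).filter (fun p => p.1 * p.2 = m), c (p.1 - 1) * c (p.2 - 1)

theorem sq_eq (c : ℕ → ℂ) (N : ℕ) (v : ℝ) :
    (∑ n ∈ Finset.range N, c n * ((n : ℂ) + 1) ^ (-(I * v))) ^ 2 =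
      ∑ m ∈ Finset.Icc 1 (N * N), bb c N m * (m : ℂ) ^ (-(I * v)) := by
  have e1 : ∑ n ∈ Finset.range N, c n * ((n : ℂ) + 1) ^ (-(I * v)) =
      ∑ k ∈ Finset.Icc 1 N, c (k - 1) * (k : ℂ) ^ (-(I * v)) := by
    have h1 : Finset.Icc 1 N = Finset.Ico (0 + 1) (N + 1) := by
      ext x; rw [Finset.mem_Icc, Finset.mem_Ico]; omega
    rw [h1, ← Finset.sum_Ico_add', Finset.range_eq_Ico]
    refine Finset.sum_congr rfl fun n _ => ?_
    rw [Nat.add_sub_cancel, Nat.cast_add, Nat.cast_one]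
  rw [e1, sq, Finset.sum_mul_sum, ← Finset.sum_product',
    ← Finset.sum_fiberwise_of_maps_to (s := Finset.Icc 1 N ×ˢ Finset.Icc 1 N)
      (t := Finset.Icc 1 (N * N)) (g := fun p => p.1 * p.2)]
  · refine Finset.sum_congr rfl fun m _ => ?_
    rw [bb, Finset.sum_mul]
    refine Finset.sum_congr rfl fun p hp => ?_
    rw [Finset.mem_filter] at hp
    rw [← hp.2, Nat.cast_mul, Complex.natCast_mul_natCast_cpow]
    ring
  · intro p hp
    rw [Finset.mem_product, Finset.mem_Icc, Finset.mem_Icc] at hp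
    rw [Finset.mem_Icc]
    exact ⟨Nat.mul_pos hp.1.1 hp.2.1, Nat.mul_le_mul hp.1.2 hp.2.2⟩

theorem bb_le {a lam : ℝ} (ha : 0 ≤ a) {c : ℕ → ℂ} (hc : Maj a lam c) (N : ℕ) {m : ℕ}
    (hm : 1 ≤ m) : ‖bb c N m‖ ≤ (m.divisors.card : ℝ) * amp (a / 2) (2 * lam) m := by
  calc ‖bb c N m‖ ≤ ∑ p ∈ (Finset.Icc 1 N ×ˢ Finset.Icc 1 N).filter (fun p => p.1 * p.2 = m),
        ‖c (p.1 - 1) * c (p.2 - 1)‖ := norm_sum_le _ _
    _ ≤ ∑ p ∈ (Finset.Icc 1 N ×ˢ Finset.Icc 1 N).filter (fun p => p.1 * p.2 = m),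
        amp (a / 2) (2 * lam) m := by
        refine Finset.sum_le_sum fun p hp => ?_
        rw [Finset.mem_filter, Finset.mem_product, Finset.mem_Icc, Finset.mem_Icc] at hp
        obtain ⟨⟨⟨h1, _⟩, h2, _⟩, h3⟩ := hp
        rw [norm_mul]
        have e1 : ‖c (p.1 - 1)‖ ≤ amp a lam p.1 := by
          have := hc (p.1 - 1)
          rwa [Nat.sub_add_cancel h1] at this
        have e2 : ‖c (p.2 - 1)‖ ≤ amp a lam p.2 := by
          have := hc (p.2 - 1)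
          rwa [Nat.sub_add_cancel h2] at this
        calc ‖c (p.1 - 1)‖ * ‖c (p.2 - 1)‖ ≤ amp a lam p.1 * amp a lam p.2 :=
              mul_le_mul e1 e2 (norm_nonneg _) (amp_nonneg _ _ _)
          _ ≤ amp (a / 2) (2 * lam) (p.1 * p.2) := amp_mul lam ha h1 h2
          _ = _ := by rw [h3]
    _ = (((Finset.Icc 1 N ×ˢ Finset.Icc 1 N).filter (fun p => p.1 * p.2 = m)).card : ℝ) *
        amp (a / 2) (2 * lam) m := by rw [Finset.sum_const, nsmul_eq_mul]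
    _ ≤ _ := by
        apply mul_le_mul_of_nonneg_right _ (amp_nonneg _ _ _)
        have : ((Finset.Icc 1 N ×ˢ Finset.Icc 1 N).filter (fun p => p.1 * p.2 = m)).card ≤
            m.divisors.card := by
          apply Finset.card_le_card_of_injOn (fun p => p.1)
          · intro p hp
            rw [Finset.mem_coe, Finset.mem_filter] at hp
            rw [Finset.mem_coe, Nat.mem_divisors]
            exact ⟨⟨p.2, hp.2.symm⟩, by omega⟩
          · intro p hp q hq hpq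
            rw [Finset.mem_coe, Finset.mem_filter, Finset.mem_product, Finset.mem_Icc,
              Finset.mem_Icc] at hp hq
            have h1 : p.1 = q.1 := hpq
            have h2 : p.1 * p.2 = p.1 * q.2 := by rw [hp.2, h1, hq.2]
            exact Prod.ext h1 (Nat.eq_of_mul_eq_mul_left (by omega) h2)
        exact_mod_cast this

theorem DS_summable {a lam : ℝ} {c : ℕ → ℂ} (hc : Maj a lam c)
    (hs : Summable (fun n : ℕ => amp a lam (n + 1))) (v : ℝ) :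
    Summable (fun n : ℕ => c n * ((n : ℂ) + 1) ^ (-(I * v))) := by
  refine Summable.of_norm_bounded hs fun n => ?_
  rw [norm_mul, norm_one_term, mul_one]
  exact hc n

theorem DS_cont {a lam : ℝ} {c : ℕ → ℂ} (hc : Maj a lam c)
    (hs : Summable (fun n : ℕ => amp a lam (n + 1))) : Continuous (DS c) := by
  unfold DS
  refine continuous_tsum (u := fun n : ℕ => amp a lam (n + 1)) (fun n => ?_) hs fun n v => ?_
  · refine continuous_const.mul ?_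
    refine Continuous.const_cpow (by fun_prop) (Or.inl ?_)
    exact_mod_cast Nat.succ_ne_zero n
  · rw [norm_mul, norm_one_term, mul_one]
    exact hc n

/-- the constant `∑ 1/n²` -/
noncomputable def ZZ : ℝ := ∑' n : ℕ, ((((n + 1 : ℕ) : ℝ)) ^ 2)⁻¹

theorem ZZ_summable : Summable fun n : ℕ => ((((n + 1 : ℕ) : ℝ)) ^ 2)⁻¹ := by
  have h := (Real.summable_nat_pow_inv (p := 2)).mpr (by norm_num)
  exact (summable_nat_add_iff 1).mpr h

theorem ZZ_nonneg : 0 ≤ ZZ := tsum_nonneg fun _ => by positivity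

/-- the terms after the first `N` -/
theorem tail_le {a lam : ℝ} (ha : 0 ≤ a) {c : ℕ → ℂ} (hc : Maj a lam c)
    (hs : Summable (fun n : ℕ => amp a lam (n + 1))) {N : ℕ} {x : ℝ} (hx : 0 ≤ x)
    (hN : ∀ n : ℕ, N ≤ n → lam + x ≤ Real.log ((n + 1 : ℕ) : ℝ)) (v : ℝ) :
    ‖DS c v‖ ≤ ‖∑ n ∈ Finset.range N, c n * ((n : ℂ) + 1) ^ (-(I * v))‖ +
      ZZ * Real.exp (-(a * x ^ 2)) := by
  have h1 := (DS_summable hc hs v).sum_add_tsum_nat_add N
  have h2 : ‖∑' n : ℕ, c (n + N) * (((n + N : ℕ) : ℂ) + 1) ^ (-(I * v))‖ ≤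
      ZZ * Real.exp (-(a * x ^ 2)) := by
    have hb : ∀ n : ℕ, ‖c (n + N) * (((n + N : ℕ) : ℂ) + 1) ^ (-(I * v))‖ ≤
        ((((n + 1 : ℕ) : ℝ)) ^ 2)⁻¹ * Real.exp (-(a * x ^ 2)) := by
      intro n
      rw [norm_mul, norm_one_term, mul_one]
      refine (hc (n + N)).trans ?_
      unfold amp
      have e1 : ((((n + N + 1 : ℕ) : ℝ)) ^ 2)⁻¹ ≤ ((((n + 1 : ℕ) : ℝ)) ^ 2)⁻¹ := by
        apply inv_anti₀ (by positivity)
        gcongr
        omega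
      have e2 : Real.exp (-a * (Real.log ((n + N + 1 : ℕ) : ℝ) - lam) ^ 2) ≤
          Real.exp (-(a * x ^ 2)) := by
        apply Real.exp_le_exp.mpr
        have h3 := hN (n + N) (Nat.le_add_left _ _)
        have h4 : x ^ 2 ≤ (Real.log ((n + N + 1 : ℕ) : ℝ) - lam) ^ 2 := by
          apply pow_le_pow_left₀ hx
          linarith
        nlinarith [mul_le_mul_of_nonneg_left h4 ha]
      exact mul_le_mul e1 e2 (Real.exp_nonneg _) (by positivity)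
    have hsn : Summable fun n : ℕ => ‖c (n + N) * (((n + N : ℕ) : ℂ) + 1) ^ (-(I * v))‖ :=
      Summable.of_nonneg_of_le (fun _ => norm_nonneg _) hb (ZZ_summable.mul_right _)
    calc _ ≤ ∑' n : ℕ, ‖c (n + N) * (((n + N : ℕ) : ℂ) + 1) ^ (-(I * v))‖ :=
          norm_tsum_le_tsum_norm hsn
      _ ≤ ∑' n : ℕ, ((((n + 1 : ℕ) : ℝ)) ^ 2)⁻¹ * Real.exp (-(a * x ^ 2)) :=
          Summable.tsum_le_tsum hb hsn (ZZ_summable.mul_right _)
      _ = _ := by rw [tsum_mul_right]; rfl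
  have h3 : DS c v = ∑ n ∈ Finset.range N, c n * ((n : ℂ) + 1) ^ (-(I * v)) +
      ∑' n : ℕ, c (n + N) * (((n + N : ℕ) : ℂ) + 1) ^ (-(I * v)) := h1.symm
  rw [h3]
  exact (norm_add_le _ _).trans (add_le_add_right h2 _)

/-- the sum of the squares of the coefficients -/
theorem sum_bb {a lam : ℝ} (ha : 0 < a) {c : ℕ → ℂ} (hc : Maj a lam c) {Cs Cd δ : ℝ}
    (hδ : 0 < δ) (hCd : 0 < Cd)
    (hdiv : ∀ n : ℕ, 1 ≤ n → (n.divisors.card : ℝ) ≤ Cd * (n : ℝ) ^ δ)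
    (hsm : Summable (fun n : ℕ => amp (a / 2) (2 * lam) (n + 1)))
    (hs : ∑' n : ℕ, (amp (a / 2) (2 * lam) (n + 1)) ^ 2 ≤ Cs * Real.exp (-(3 * (2 * lam)))) (N : ℕ) :
    ∑ m ∈ Finset.Icc 1 (N * N), ‖bb c N m‖ ^ 2 ≤
      (Cd * ((N * N : ℕ) : ℝ) ^ δ) ^ 2 * (Cs * Real.exp (-(3 * (2 * lam)))) := by
  have h0 : Summable (fun n : ℕ => (amp (a / 2) (2 * lam) (n + 1)) ^ 2) := by
    refine Summable.of_nonneg_of_le (fun _ => by positivity) (fun n => ?_) hsm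
    have h1 := amp_nonneg (a / 2) (2 * lam) (n + 1)
    have h2 : amp (a / 2) (2 * lam) (n + 1) ≤ 1 := by
      refine (amp_le _ _ (by positivity) _).trans ?_
      apply inv_le_one_of_one_le₀
      have : (1 : ℝ) ≤ ((n + 1 : ℕ) : ℝ) := by exact_mod_cast Nat.succ_le_succ (Nat.zero_le n)
      nlinarith
    nlinarith
  calc ∑ m ∈ Finset.Icc 1 (N * N), ‖bb c N m‖ ^ 2 ≤ ∑ m ∈ Finset.Icc 1 (N * N),
        (Cd * ((N * N : ℕ) : ℝ) ^ δ) ^ 2 * (amp (a / 2) (2 * lam) m) ^ 2 := by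
        refine Finset.sum_le_sum fun m hm => ?_
        rw [Finset.mem_Icc] at hm
        rw [← mul_pow]
        apply pow_le_pow_left₀ (norm_nonneg _)
        refine (bb_le ha.le hc N hm.1).trans ?_
        apply mul_le_mul_of_nonneg_right _ (amp_nonneg _ _ _)
        refine (hdiv m hm.1).trans ?_
        apply mul_le_mul_of_nonneg_left _ hCd.le
        apply Real.rpow_le_rpow (by positivity) _ hδ.le
        exact_mod_cast hm.2
    _ = (Cd * ((N * N : ℕ) : ℝ) ^ δ) ^ 2 * ∑ m ∈ Finset.Icc 1 (N * N),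
          (amp (a / 2) (2 * lam) m) ^ 2 := by rw [Finset.mul_sum]
    _ ≤ _ := by
        apply mul_le_mul_of_nonneg_left _ (by positivity)
        refine le_trans ?_ hs
        have h1 : Finset.Icc 1 (N * N) = Finset.Ico (0 + 1) (N * N + 1) := by
          ext x; rw [Finset.mem_Icc, Finset.mem_Ico]; omega
        rw [h1, ← Finset.sum_Ico_add', ← Finset.range_eq_Ico]
        exact h0.sum_le_tsum _ fun _ _ => by positivity

theorem main_int {a lam : ℝ} (ha : 0 < a) {c : ℕ → ℂ} (hc : Maj a lam c)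
    (hs : Summable (fun n : ℕ => amp a lam (n + 1))) {N : ℕ} {x : ℝ} (hx : 0 ≤ x)
    (hN : ∀ n : ℕ, N ≤ n → lam + x ≤ Real.log ((n + 1 : ℕ) : ℝ)) {CM B : ℝ} (hCM : 0 < CM)
    (hMV : ∀ (M : ℕ) (c : ℕ → ℂ) (V T : ℝ), 1 ≤ T →
      ∫ v in V..(V + T), ‖∑ m ∈ Finset.Icc 1 M, c m * (m : ℂ) ^ (-(I * v))‖ ^ 2 ≤
        CM * (T + M * Real.log (M + 1)) * ∑ m ∈ Finset.Icc 1 M, ‖c m‖ ^ 2)
    (hB : ∑ m ∈ Finset.Icc 1 (N * N), ‖bb c N m‖ ^ 2 ≤ B) {T : ℝ} (hT : 1 ≤ T) :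
    ∫ v in T..(3 * T), ‖DS c v‖ ^ 4 ≤
      8 * (CM * (2 * T + ((N * N : ℕ) : ℝ) * Real.log (((N * N : ℕ) : ℝ) + 1)) * B) +
        16 * T * (ZZ * Real.exp (-(a * x ^ 2))) ^ 4 := by
  set q : ℝ := ZZ * Real.exp (-(a * x ^ 2)) with hq
  have hq0 : 0 ≤ q := mul_nonneg ZZ_nonneg (Real.exp_nonneg _)
  set G : ℝ → ℂ := fun v => ∑ m ∈ Finset.Icc 1 (N * N), bb c N m * (m : ℂ) ^ (-(I * v)) with hG
  have hGc : Continuous G := by
    refine continuous_finsetSum _ fun m hm => ?_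
    rw [Finset.mem_Icc] at hm
    refine continuous_const.mul ?_
    refine Continuous.const_cpow (by fun_prop) (Or.inl ?_)
    exact_mod_cast (by omega : m ≠ 0)
  have hp : ∀ v, ‖DS c v‖ ^ 4 ≤ 8 * ‖G v‖ ^ 2 + 8 * q ^ 4 := by
    intro v
    have h1 := tail_le ha.le hc hs hx hN v
    have h2 : ‖G v‖ ^ 2 = ‖∑ n ∈ Finset.range N, c n * ((n : ℂ) + 1) ^ (-(I * v))‖ ^ 4 := by
      rw [hG]
      simp only
      rw [← sq_eq, norm_pow, ← pow_mul]
    rw [h2]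
    exact (pow_le_pow_left₀ (norm_nonneg _) h1 4).trans four_le
  have h3 : ∫ v in T..(3 * T), ‖DS c v‖ ^ 4 ≤ ∫ v in T..(3 * T), (8 * ‖G v‖ ^ 2 + 8 * q ^ 4) := by
    apply intervalIntegral.integral_mono_on (by linarith)
    · exact (((DS_cont hc hs).norm).pow 4).intervalIntegrable _ _
    · exact Continuous.intervalIntegrable (by fun_prop) _ _
    · intro v _; exact hp v
  have h4 : ∫ v in T..(3 * T), (8 * ‖G v‖ ^ 2 + 8 * q ^ 4) =
      8 * (∫ v in T..(3 * T), ‖G v‖ ^ 2) + 16 * T * q ^ 4 := by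
    rw [intervalIntegral.integral_add (Continuous.intervalIntegrable (by fun_prop) _ _)
      (Continuous.intervalIntegrable (by fun_prop) _ _), intervalIntegral.integral_const_mul,
      intervalIntegral.integral_const, smul_eq_mul]
    ring
  have h5 := hMV (N * N) (bb c N) T (2 * T) (by linarith)
  rw [show T + 2 * T = 3 * T by ring] at h5
  have h6 : (0 : ℝ) ≤ 2 * T + ((N * N : ℕ) : ℝ) * Real.log (((N * N : ℕ) : ℝ) + 1) := by
    have : 0 ≤ Real.log (((N * N : ℕ) : ℝ) + 1) := Real.log_nonneg (by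
      have : (0 : ℝ) ≤ ((N * N : ℕ) : ℝ) := Nat.cast_nonneg _
      linarith)
    positivity
  rw [h4] at h3
  refine h3.trans ?_
  have h7 : ∫ v in T..(3 * T), ‖G v‖ ^ 2 ≤
      CM * (2 * T + ((N * N : ℕ) : ℝ) * Real.log (((N * N : ℕ) : ℝ) + 1)) * B :=
    h5.trans (mul_le_mul_of_nonneg_left hB (by positivity))
  linarith

/-- the large parameters -/
theorem params {a δ C₀ K : ℝ} (ha : 0 < a) (hδ : 0 < δ) (hK : 0 < K) (hC₀ : 0 < C₀) :
    ∃ T₀ : ℝ, 4 ≤ T₀ ∧ ∀ T : ℝ, T₀ ≤ T → C₀ + 1 ≤ Real.log T / 2 ∧ C₀ ≤ δ * Real.log T ∧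
      2 * Real.log T ≤ a * (δ * Real.log T - C₀) ^ 2 ∧ K ≤ T ^ δ := by
  refine ⟨max (max 4 (Real.exp (max (2 * (C₀ + 1)) (max (2 * C₀ / δ) (8 / (a * δ ^ 2)))))) (K ^ (1 / δ)), ?_, ?_⟩
  · exact le_trans (le_max_left _ _) (le_max_left _ _)
  intro T hT
  have h1 := (le_max_left _ _).trans hT
  have h2 := (le_max_left _ _).trans h1
  have h3 := (le_max_right _ _).trans h1
  have h4 := (le_max_right _ _).trans hT
  have hT0 : 0 < T := by linarith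
  have h5 : max (2 * (C₀ + 1)) (max (2 * C₀ / δ) (8 / (a * δ ^ 2))) ≤ Real.log T := by
    rw [← Real.exp_le_exp, Real.exp_log hT0]; exact h3
  have h6 := (le_max_left _ _).trans h5
  have h7 := (le_max_right _ _).trans h5
  have h8 := (le_max_left _ _).trans h7
  have h9 := (le_max_right _ _).trans h7
  have hL : 0 < Real.log T := by linarith
  rw [div_le_iff₀ hδ] at h8
  rw [div_le_iff₀ (by positivity)] at h9
  refine ⟨by linarith, by nlinarith, ?_, ?_⟩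
  · have h10 : δ * Real.log T / 2 ≤ δ * Real.log T - C₀ := by nlinarith
    have h11 : (δ * Real.log T / 2) ^ 2 ≤ (δ * Real.log T - C₀) ^ 2 :=
      pow_le_pow_left₀ (by positivity) h10 2
    have h12 := mul_le_mul_of_nonneg_left h11 ha.le
    refine le_trans ?_ h12
    have h13 := mul_le_mul_of_nonneg_right h9 hL.le
    nlinarith
  · calc K = (K ^ (1 / δ)) ^ δ := by
          rw [← Real.rpow_mul hK.le, one_div_mul_cancel hδ.ne', Real.rpow_one]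
      _ ≤ T ^ δ := Real.rpow_le_rpow (by positivity) h4 hδ.le

/-- the fourth moment -/
theorem t_FOUR : S_MV → S_SUM → S_FOUR := by
  rintro ⟨CM, hCM, hMV⟩ hSUM a ε C₀ ha hε hC₀
  set δ : ℝ := min ε 1 / 20 with hδd
  have hδ : 0 < δ := by positivity
  have hδ1 : δ ≤ 1 / 20 := by
    have := min_le_right ε 1
    linarith
  have hδε : 20 * δ ≤ ε := by
    have := min_le_left ε 1
    linarith
  obtain ⟨Cd, hCd, hdiv⟩ := Pool.Agent.H510R2.divisor_bound δ hδ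
  obtain ⟨c1, C1, _, _, hS1⟩ := hSUM a 1 ha one_pos
  obtain ⟨c2, C2, _, hC2, hS2⟩ := hSUM (a / 2) 1 (by positivity) one_pos
  set K : ℝ := 8 * (CM * (2 + 1 / δ) * (Cd ^ 2 * C2 * Real.exp (6 * C₀))) + 16 * ZZ ^ 4 + 1 with hK
  have hK0 : 0 < K := by
    have := ZZ_nonneg
    positivity
  obtain ⟨T₀, hT₀, hT⟩ := params (a := a) ha hδ hK0 hC₀
  refine ⟨T₀, by linarith, fun T lam hTT hlam c hc => ?_⟩
  obtain ⟨p1, p2, p3, p4⟩ := hT T hTT
  have hT4 : 4 ≤ T := hT₀.trans hTT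
  have hT0 : 0 < T := by linarith
  have hT1 : 1 ≤ T := by linarith
  set L := Real.log T with hL
  rw [abs_le] at hlam
  have hlam1 : 1 ≤ lam := by linarith [hlam.1]
  set N : ℕ := ⌊T ^ (1 / 2 + δ)⌋₊ with hNd
  have hN1 : (N : ℝ) ≤ T ^ (1 / 2 + δ) := Nat.floor_le (by positivity)
  have hx : 0 ≤ δ * L - C₀ := by linarith
  have hN : ∀ n : ℕ, N ≤ n → lam + (δ * L - C₀) ≤ Real.log ((n + 1 : ℕ) : ℝ) := by
    intro n hn
    have h1 : T ^ (1 / 2 + δ) ≤ ((n + 1 : ℕ) : ℝ) := by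
      have h2 := Nat.lt_floor_add_one (T ^ (1 / 2 + δ))
      have h3 : ((N : ℕ) : ℝ) ≤ (n : ℝ) := by exact_mod_cast hn
      push_cast
      linarith
    have h2 := Real.log_le_log (by positivity) h1
    rw [Real.log_rpow hT0] at h2
    have := hlam.2
    nlinarith
  have hsm := (hS1 lam hlam1).1
  have hsm2 := (hS2 (2 * lam) (by linarith)).1
  have hs2 := (hS2 (2 * lam) (by linarith)).2.2.2.2.2.1
  have hB := sum_bb ha hc hδ hCd hdiv hsm2 hs2 N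
  have hI := main_int ha hc hsm hx hN hCM hMV hB hT1
  refine hI.trans ?_
  -- sizes
  set M : ℝ := ((N * N : ℕ) : ℝ) with hM
  have hM0 : 0 ≤ M := Nat.cast_nonneg _
  have hM1 : M ≤ T ^ (1 + 2 * δ) := by
    rw [hM, Nat.cast_mul]
    calc (N : ℝ) * N ≤ T ^ (1 / 2 + δ) * T ^ (1 / 2 + δ) := by gcongr
      _ = T ^ (1 + 2 * δ) := by rw [← Real.rpow_add hT0]; ring_nf
  have hM2 : M + 1 ≤ T ^ (2 : ℝ) := by
    have h1 : (1 : ℝ) ≤ T ^ (1 + 2 * δ) := Real.one_le_rpow hT1 (by linarith)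
    have h2 : (2 : ℝ) ≤ T ^ (1 / 2 : ℝ) := by
      rw [← Real.sqrt_eq_rpow]
      apply Real.le_sqrt_of_sq_le
      linarith
    calc M + 1 ≤ T ^ (1 + 2 * δ) * 2 := by linarith
      _ ≤ T ^ (1 + 2 * δ) * T ^ (1 / 2 : ℝ) := by gcongr
      _ = T ^ (1 + 2 * δ + 1 / 2) := by rw [← Real.rpow_add hT0]
      _ ≤ T ^ (2 : ℝ) := Real.rpow_le_rpow_of_exponent_le hT1 (by linarith)
  have hlog : Real.log (M + 1) ≤ T ^ (2 * δ) / δ := by
    refine (Real.log_le_rpow_div (by linarith) hδ).trans ?_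
    gcongr
    calc (M + 1) ^ δ ≤ (T ^ (2 : ℝ)) ^ δ := Real.rpow_le_rpow (by linarith) hM2 hδ.le
      _ = T ^ (2 * δ) := by rw [← Real.rpow_mul hT0.le]
  have hA : 2 * T + M * Real.log (M + 1) ≤ (2 + 1 / δ) * T ^ (1 + 4 * δ) := by
    have h1 : T ≤ T ^ (1 + 4 * δ) := by
      calc T = T ^ (1 : ℝ) := (Real.rpow_one _).symm
        _ ≤ _ := Real.rpow_le_rpow_of_exponent_le hT1 (by linarith)
    have h2 : M * Real.log (M + 1) ≤ T ^ (1 + 2 * δ) * (T ^ (2 * δ) / δ) := by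
      apply mul_le_mul hM1 hlog (Real.log_nonneg (by linarith)) (by positivity)
    have h3 : T ^ (1 + 2 * δ) * (T ^ (2 * δ) / δ) = 1 / δ * T ^ (1 + 4 * δ) := by
      rw [show 1 + 4 * δ = (1 + 2 * δ) + 2 * δ by ring, Real.rpow_add hT0 (1 + 2 * δ)]
      ring
    rw [h3] at h2
    linarith
  have hE : Real.exp (-(3 * (2 * lam))) ≤ Real.exp (6 * C₀) * T ^ (-3 : ℝ) := by
    rw [Real.rpow_def_of_pos hT0, ← Real.exp_add]
    apply Real.exp_le_exp.mpr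
    have := hlam.1
    linarith
  have hMd : M ^ δ ≤ T ^ (1.5 * δ) := by
    calc M ^ δ ≤ (T ^ (1 + 2 * δ)) ^ δ := Real.rpow_le_rpow hM0 hM1 hδ.le
      _ = T ^ ((1 + 2 * δ) * δ) := by rw [← Real.rpow_mul hT0.le]
      _ ≤ T ^ (1.5 * δ) := Real.rpow_le_rpow_of_exponent_le hT1 (by nlinarith)
  have hBB : (Cd * M ^ δ) ^ 2 * (C2 * Real.exp (-(3 * (2 * lam)))) ≤
      (Cd ^ 2 * C2 * Real.exp (6 * C₀)) * T ^ (3 * δ - 3) := by
    have h1 : (Cd * M ^ δ) ^ 2 ≤ Cd ^ 2 * T ^ (3 * δ) := by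
      calc (Cd * M ^ δ) ^ 2 ≤ (Cd * T ^ (1.5 * δ)) ^ 2 := by gcongr
        _ = Cd ^ 2 * T ^ (3 * δ) := by
            rw [mul_pow, ← Real.rpow_natCast (T ^ (1.5 * δ)) 2, ← Real.rpow_mul hT0.le]
            norm_num
            left
            ring_nf
    calc _ ≤ (Cd ^ 2 * T ^ (3 * δ)) * (C2 * (Real.exp (6 * C₀) * T ^ (-3 : ℝ))) := by gcongr
      _ = (Cd ^ 2 * C2 * Real.exp (6 * C₀)) * (T ^ (3 * δ) * T ^ (-3 : ℝ)) := by ring
      _ = _ := by rw [← Real.rpow_add hT0]; ring_nf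
  have hq : Real.exp (-(a * (δ * L - C₀) ^ 2)) ≤ T ^ (-2 : ℝ) := by
    rw [Real.rpow_def_of_pos hT0]
    apply Real.exp_le_exp.mpr
    linarith
  have hq4 : 16 * T * (ZZ * Real.exp (-(a * (δ * L - C₀) ^ 2))) ^ 4 ≤ 16 * ZZ ^ 4 * T ^ (7 * δ - 2) := by
    have hZ := ZZ_nonneg
    calc 16 * T * (ZZ * Real.exp (-(a * (δ * L - C₀) ^ 2))) ^ 4 ≤ 16 * T * (ZZ * T ^ (-2 : ℝ)) ^ 4 := by
          gcongr
      _ = 16 * ZZ ^ 4 * (T ^ (1 : ℝ) * T ^ (-8 : ℝ)) := by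
          rw [mul_pow, ← Real.rpow_natCast (T ^ (-2 : ℝ)) 4, ← Real.rpow_mul hT0.le, Real.rpow_one]
          norm_num
          ring
      _ = 16 * ZZ ^ 4 * T ^ (-7 : ℝ) := by rw [← Real.rpow_add hT0]; norm_num
      _ ≤ _ := by
          apply mul_le_mul_of_nonneg_left _ (by positivity)
          exact Real.rpow_le_rpow_of_exponent_le hT1 (by linarith)
  have hfirst : 8 * (CM * (2 * T + M * Real.log (M + 1)) *
      ((Cd * M ^ δ) ^ 2 * (C2 * Real.exp (-(3 * (2 * lam)))))) ≤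
      8 * (CM * (2 + 1 / δ) * (Cd ^ 2 * C2 * Real.exp (6 * C₀))) * T ^ (7 * δ - 2) := by
    have h0 : 0 ≤ (Cd * M ^ δ) ^ 2 * (C2 * Real.exp (-(3 * (2 * lam)))) := by positivity
    calc _ ≤ 8 * (CM * ((2 + 1 / δ) * T ^ (1 + 4 * δ)) *
          ((Cd ^ 2 * C2 * Real.exp (6 * C₀)) * T ^ (3 * δ - 3))) := by gcongr
      _ = 8 * (CM * (2 + 1 / δ) * (Cd ^ 2 * C2 * Real.exp (6 * C₀))) *
          (T ^ (1 + 4 * δ) * T ^ (3 * δ - 3)) := by ring
      _ = _ := by rw [← Real.rpow_add hT0]; ring_nf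
  have hfin : K * T ^ (7 * δ - 2) ≤ T ^ (ε - 2) := by
    calc K * T ^ (7 * δ - 2) ≤ T ^ δ * T ^ (7 * δ - 2) := by gcongr
      _ = T ^ (8 * δ - 2) := by rw [← Real.rpow_add hT0]; ring_nf
      _ ≤ _ := Real.rpow_le_rpow_of_exponent_le hT1 (by linarith)
  refine le_trans ?_ hfin
  have h9 : 0 ≤ T ^ (7 * δ - 2) := by positivity
  rw [hK, add_mul, add_mul, one_mul]
  exact (add_le_add hfirst hq4).trans (le_add_of_nonneg_right h9)

end Pool.Agent.J4H89.RZ
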